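import Pool.Agent.Helper60.BFT.Goals
import Pool.Agent.Helper60.BFT.AvBasic

/-! DIFG and LOCG -/

set_option autoImplicit false

open Finset

namespace Pool.Agent.Helper30.BFT

open Pool.Agent.Helper60.BFT

/-- the number of members of a class modulo `q` among `N` consecutive integers -/
theorem count_class (q : ℕ) (hq : 0 < q) (N c u : ℕ) :
    (((range N).filter (fun i => c + i ≡ u [MOD q])).card : ℝ) ≤ (N : ℝ) / q + 1 := by
  have h1 : ((range N).filter (fun i => c + i ≡ u [MOD q])).card ≤ (range (N / q + 1)).card := by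
    refine Finset.card_le_card_of_injOn (fun i => i / q) ?_ ?_
    · intro i hi
      simp only [coe_filter, mem_range, Set.mem_setOf_eq] at hi
      simp only [coe_range, Set.mem_Iio]
      have := Nat.div_le_div_right (c := q) hi.1.le
      omega
    · intro i hi j hj hij
      simp only [coe_filter, mem_range, Set.mem_setOf_eq] at hi hj
      have h2 : i ≡ j [MOD q] := Nat.ModEq.add_left_cancel' c (hi.2.trans hj.2.symm)
      have h3 : i % q = j % q := h2
      simp only at hij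
      rw [← Nat.div_add_mod i q, ← Nat.div_add_mod j q, hij, h3]
  rw [card_range] at h1
  have h2 : (((range N).filter (fun i => c + i ≡ u [MOD q])).card : ℝ) ≤ ((N / q + 1 : ℕ) : ℝ) := by
    exact_mod_cast h1
  have h3 : ((N / q : ℕ) : ℝ) ≤ (N : ℝ) / q := Nat.cast_div_le
  push_cast at h2
  linarith

section dif

variable {K : ℕ} {Z : ℕ → ℕ} {β : ℕ → ℕ → (ℕ → ℕ) → ℕ}

theorem YF_zero_or_one (r : ℕ) (a : ℕ → ℕ) (n : ℕ) :
    YF K Z β r a n = 0 ∨ YF K Z β r a n = 1 := by
  unfold YF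
  split_ifs
  · exact Or.inr rfl
  · exact Or.inl rfl

theorem YF_congr (r : ℕ) (a a' : ℕ → ℕ) (n : ℕ)
    (h : ∀ p : ℕ, p.Prime → 3 ≤ p → p ≤ Z (r ^ K) →
      ((¬ n ≡ (if p ≤ r then β r p a else a p) [MOD p] ∧
        ¬ n + 2 ≡ (if p ≤ r then β r p a else a p) [MOD p]) ↔
      (¬ n ≡ (if p ≤ r then β r p a' else a' p) [MOD p] ∧
        ¬ n + 2 ≡ (if p ≤ r then β r p a' else a' p) [MOD p]))) :
    YF K Z β r a n = YF K Z β r a' n := by
  unfold YF
  congr 1
  apply propext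
  refine and_congr_right (fun _ => ?_)
  refine forall_congr' (fun p => ?_)
  refine forall_congr' (fun hp => ?_)
  refine forall_congr' (fun hp3 => ?_)
  refine forall_congr' (fun hpZ => ?_)
  exact h p hp hp3 hpZ

theorem YF_update (hβ : Adapted β) (r q : ℕ) (hq : r < q) (a : ℕ → ℕ) (u v n : ℕ)
    (h1 : ¬ n ≡ u [MOD q]) (h2 : ¬ n + 2 ≡ u [MOD q]) (h3 : ¬ n ≡ v [MOD q])
    (h4 : ¬ n + 2 ≡ v [MOD q]) :
    YF K Z β r (Function.update a q u) n = YF K Z β r (Function.update a q v) n := by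
  refine YF_congr r _ _ n (fun p _ _ _ => ?_)
  by_cases hpr : p ≤ r
  · rw [if_pos hpr, if_pos hpr]
    have : β r p (Function.update a q u) = β r p (Function.update a q v) :=
      hβ r p hpr _ _ (fun q' hq' => by
        rw [Function.update_of_ne (by omega), Function.update_of_ne (by omega)])
    rw [this]
  · rw [if_neg hpr, if_neg hpr]
    by_cases hpq : p = q
    · subst hpq
      rw [Function.update_self, Function.update_self]
      exact ⟨fun _ => ⟨h3, h4⟩, fun _ => ⟨h1, h2⟩⟩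
    · rw [Function.update_of_ne hpq, Function.update_of_ne hpq]

open Classical in
theorem abs_YF_update (hβ : Adapted β) (r q : ℕ) (hq : r < q) (a : ℕ → ℕ) (u v n : ℕ) :
    |YF K Z β r (Function.update a q u) n - YF K Z β r (Function.update a q v) n| ≤
      (if n ≡ u [MOD q] then 1 else 0) + (if n + 2 ≡ u [MOD q] then 1 else 0) +
      (if n ≡ v [MOD q] then 1 else 0) + (if n + 2 ≡ v [MOD q] then 1 else 0) := by
  by_cases h : ¬ n ≡ u [MOD q] ∧ ¬ n + 2 ≡ u [MOD q] ∧ ¬ n ≡ v [MOD q] ∧ ¬ n + 2 ≡ v [MOD q]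
  · obtain ⟨h1, h2, h3, h4⟩ := h
    rw [YF_update hβ r q hq a u v n h1 h2 h3 h4, if_neg h1, if_neg h2, if_neg h3, if_neg h4]
    simp
  · have hle : |YF K Z β r (Function.update a q u) n - YF K Z β r (Function.update a q v) n| ≤ 1 := by
      rcases YF_zero_or_one (K := K) (Z := Z) (β := β) r (Function.update a q u) n with e | e <;>
      rcases YF_zero_or_one (K := K) (Z := Z) (β := β) r (Function.update a q v) n with e' | e' <;>
      rw [e, e'] <;> norm_num
    refine hle.trans ?_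
    have p1 : (0 : ℝ) ≤ (if n ≡ u [MOD q] then 1 else 0) := by split_ifs <;> norm_num
    have p2 : (0 : ℝ) ≤ (if n + 2 ≡ u [MOD q] then 1 else 0) := by split_ifs <;> norm_num
    have p3 : (0 : ℝ) ≤ (if n ≡ v [MOD q] then 1 else 0) := by split_ifs <;> norm_num
    have p4 : (0 : ℝ) ≤ (if n + 2 ≡ v [MOD q] then 1 else 0) := by split_ifs <;> norm_num
    by_cases c1 : n ≡ u [MOD q]
    · rw [if_pos c1]; linarith
    by_cases c2 : n + 2 ≡ u [MOD q]
    · rw [if_pos c2]; linarith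
    by_cases c3 : n ≡ v [MOD q]
    · rw [if_pos c3]; linarith
    by_cases c4 : n + 2 ≡ v [MOD q]
    · rw [if_pos c4]; linarith
    exact absurd ⟨c1, c2, c3, c4⟩ h

open Classical in
theorem sum_ind_le (q : ℕ) (hq : 0 < q) (N c u : ℕ) :
    (∑ i ∈ range N, (if c + i ≡ u [MOD q] then (1 : ℝ) else 0)) ≤ (N : ℝ) / q + 1 := by
  rw [Finset.sum_boole]
  convert count_class q hq N c u

theorem sum_abs_YF_update (hβ : Adapted β) (r q : ℕ) (hq : r < q) (a : ℕ → ℕ) (u v : ℕ) :
    ∑ i ∈ range (len K r), |YF K Z β r (Function.update a q u) (r ^ K + i) -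
      YF K Z β r (Function.update a q v) (r ^ K + i)| ≤ 4 * ((len K r : ℝ) / q + 1) := by
  classical
  have hq0 : 0 < q := by omega
  have e1 := sum_ind_le q hq0 (len K r) (r ^ K) u
  have e2 := sum_ind_le q hq0 (len K r) (r ^ K + 2) u
  have e3 := sum_ind_le q hq0 (len K r) (r ^ K) v
  have e4 := sum_ind_le q hq0 (len K r) (r ^ K + 2) v
  refine (Finset.sum_le_sum (fun i _ => abs_YF_update hβ r q hq a u v (r ^ K + i))).trans ?_
  rw [Finset.sum_add_distrib, Finset.sum_add_distrib, Finset.sum_add_distrib]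
  have hc : ∀ i, r ^ K + i + 2 = r ^ K + 2 + i := fun i => by ring
  simp only [hc]
  linarith

theorem abs_chi (n : ℕ) : |chi n| = 1 := by
  unfold chi
  split_ifs <;> simp

end dif

theorem difG (hL : LIPG) : DIFG := by
  intro K Z β hβ r q _ hrq a u v
  have hs := sum_abs_YF_update (K := K) (Z := Z) hβ r q hrq a u v
  have hnn : (0 : ℝ) ≤ (len K r : ℝ) / q + 1 := by positivity
  refine ⟨?_, ?_, ?_⟩
  · unfold T0
    rw [← Finset.sum_sub_distrib]
    refine (Finset.abs_sum_le_sum_abs _ _).trans (hs.trans ?_)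
    linarith
  · unfold T1
    rw [← Finset.sum_sub_distrib]
    refine (Finset.abs_sum_le_sum_abs _ _).trans (le_trans ?_ (hs.trans (by linarith)))
    refine Finset.sum_le_sum (fun i _ => ?_)
    rw [← mul_sub, abs_mul, abs_chi, one_mul]
  · unfold T2
    refine (hL _ _ _ (fun n => (abs_chi _).le) (fun n => YF_zero_or_one r _ _)
      (fun n => YF_zero_or_one r _ _) (len K r)).trans ?_
    linarith

theorem root_block (K r n : ℕ) (hK : 1 ≤ K) (h1 : r ^ K ≤ n) (h2 : n < (r + 1) ^ K) :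
    root K n = r := by
  unfold root
  rw [Nat.findGreatest_eq_iff]
  refine ⟨(Nat.le_self_pow (by omega) r).trans h1, fun _ => h1, ?_⟩
  intro k hk _ hk2
  have : (r + 1) ^ K ≤ k ^ K := Nat.pow_le_pow_left hk K
  omega

theorem block_lt (K r i : ℕ) (hi : i < len K r) : 1 ≤ K ∧ r ^ K + i < (r + 1) ^ K := by
  unfold len at hi
  constructor
  · rcases Nat.eq_zero_or_pos K with rfl | h
    · simp at hi
    · exact h
  · omega

theorem Av_loc (L : List ℕ) (M : ℕ) (f : (ℕ → ℕ) → ℝ)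
    (hf : ∀ b b' : ℕ → ℕ, (∀ q ≤ M, b q = b' q) → f b = f b') (a a' : ℕ → ℕ)
    (h : ∀ q ≤ M, a q = a' q) : Av L f a = Av L f a' := by
  induction L generalizing a a' with
  | nil => exact hf a a' h
  | cons q L ih =>
    rw [Av_cons, Av_cons]
    congr 1
    refine Finset.sum_congr rfl (fun c _ => ih _ _ (fun p hp => ?_))
    by_cases hpq : p = q
    · subst hpq
      rw [Function.update_self, Function.update_self]
    · rw [Function.update_of_ne hpq, Function.update_of_ne hpq, h p hp]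

theorem YF_loc {K : ℕ} {Z : ℕ → ℕ} {β : ℕ → ℕ → (ℕ → ℕ) → ℕ} (hZ : Monotone Z) (hβ : Adapted β)
    (r : ℕ) (a a' : ℕ → ℕ) (h : ∀ q ≤ max r (Z ((r + 1) ^ K)), a q = a' q) (n : ℕ) :
    YF K Z β r a n = YF K Z β r a' n := by
  refine YF_congr r _ _ n (fun p _ _ hp => ?_)
  have h1 : Z (r ^ K) ≤ Z ((r + 1) ^ K) := hZ (Nat.pow_le_pow_left (by omega) K)
  by_cases hpr : p ≤ r
  · rw [if_pos hpr, if_pos hpr, hβ r p hpr a a' (fun q hq => h q (le_trans hq (le_max_left _ _)))]
  · rw [if_neg hpr, if_neg hpr, h p (le_trans (hp.trans h1) (le_max_right _ _))]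

theorem YP_loc {K : ℕ} {Z : ℕ → ℕ} {β : ℕ → ℕ → (ℕ → ℕ) → ℕ} (hZ : Monotone Z) (hβ : Adapted β)
    (r : ℕ) (a a' : ℕ → ℕ) (h : ∀ q ≤ max r (Z ((r + 1) ^ K)), a q = a' q) (n : ℕ)
    (hK : 1 ≤ K) (h1 : r ^ K ≤ n) (h2 : n < (r + 1) ^ K) :
    YP K Z β a n = YP K Z β a' n := by
  unfold YP Pair cls
  rw [root_block K r n hK h1 h2]
  congr 1
  apply propext
  refine and_congr_right (fun _ => ?_)
  refine forall_congr' (fun p => ?_)
  refine forall_congr' (fun hp => ?_)
  refine forall_congr' (fun hp3 => ?_)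
  refine forall_congr' (fun hpZ => ?_)
  have h3 : Z n ≤ Z ((r + 1) ^ K) := hZ h2.le
  by_cases hpr : p ≤ r
  · rw [if_pos hpr, if_pos hpr, hβ r p hpr a a' (fun q hq => h q (le_trans hq (le_max_left _ _)))]
  · rw [if_neg hpr, if_neg hpr, h p (le_trans (hpZ.trans h3) (le_max_right _ _))]

theorem locG : LOCG := by
  intro K Z β hZ hβ r
  have h0 : ∀ a a' : ℕ → ℕ, (∀ q ≤ max r (Z ((r + 1) ^ K)), a q = a' q) →
      T0 K Z β r a = T0 K Z β r a' := by
    intro a a' h
    unfold T0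
    exact Finset.sum_congr rfl (fun i _ => YF_loc hZ hβ r a a' h _)
  have h1 : ∀ a a' : ℕ → ℕ, (∀ q ≤ max r (Z ((r + 1) ^ K)), a q = a' q) →
      T1 K Z β r a = T1 K Z β r a' := by
    intro a a' h
    unfold T1
    exact Finset.sum_congr rfl (fun i _ => by rw [YF_loc hZ hβ r a a' h _])
  have h2 : ∀ a a' : ℕ → ℕ, (∀ q ≤ max r (Z ((r + 1) ^ K)), a q = a' q) →
      T2 K Z β r a = T2 K Z β r a' := by
    intro a a' h
    unfold T2
    have : (fun i => YF K Z β r a (r ^ K + i)) = (fun i => YF K Z β r a' (r ^ K + i)) := by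
      funext i
      exact YF_loc hZ hβ r a a' h _
    rw [this]
  have h3 : ∀ a a' : ℕ → ℕ, (∀ q ≤ max r (Z ((r + 1) ^ K)), a q = a' q) →
      Rem K Z β r a = Rem K Z β r a' := by
    intro a a' h
    unfold Rem
    refine Finset.sum_congr rfl (fun i hi => ?_)
    obtain ⟨hK, hlt⟩ := block_lt K r i (mem_range.mp hi)
    rw [YF_loc hZ hβ r a a' h _, YP_loc hZ hβ r a a' h _ hK (by omega) hlt]
  intro a a' h
  refine ⟨h0 a a' h, h1 a a' h, h2 a a' h, h3 a a' h, ?_⟩
  unfold Dev EE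
  rw [h0 a a' h, h1 a a' h, h2 a a' h, h3 a a' h,
    Av_loc _ _ _ h0 a a' h, Av_loc _ _ _ h1 a a' h, Av_loc _ _ _ h2 a a' h]

end Pool.Agent.Helper30.BFT
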